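import Pool.Agent.MP_9fbb57_co.Game

namespace Pool.Agent.MP_9fbb57_co.Off

open Finset

variable {N : ℕ}

lemma Free.symm {A B : Finset (Sym2 (Fin N))} {e : Sym2 (Fin N)} (h : Free A B e) :
    Free B A e := ⟨h.1, h.2.2, h.2.1⟩

lemma wins_of_inv {a b : ℕ} (I : Finset (Sym2 (Fin N)) → Finset (Sym2 (Fin N)) → Prop)
    (h : ∀ A B, I A B → (∃ e, Free A B e) ∧ ∀ f, Free A B f → ¬ HasClique b (insert f B) →
      ∃ e, Free A (insert f B) e ∧ ¬ HasClique a (insert e A) ∧ I (insert e A) (insert f B)) :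
    ∀ A B, I A B → Wins a b A B false := by
  intro A B
  induction hn : (univ \ A).card using Nat.strong_induction_on generalizing A B with
  | _ n ih =>
    intro hI
    obtain ⟨h1, h2⟩ := h A B hI
    refine Wins.theirs A B h1 fun f hf hc => ?_
    obtain ⟨e, he, hce, hI'⟩ := h2 f hf hc
    refine Wins.mine A _ e he hce (ih _ ?_ _ _ rfl hI')
    rw [← hn]
    apply card_lt_card
    refine ⟨sdiff_subset_sdiff subset_rfl (subset_insert _ _), fun hs => ?_⟩
    have := hs (mem_sdiff.2 ⟨mem_univ e, he.2.1⟩)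
    simp at this

lemma HasClique.mono {q : ℕ} {A B : Finset (Sym2 (Fin N))} (h : HasClique q A) (hAB : A ⊆ B) :
    HasClique q B := by
  obtain ⟨K, hK, h⟩ := h
  exact ⟨K, hK, fun u hu v hv huv => hAB (h u hu v hv huv)⟩

lemma card_lt_of_clique {q : ℕ} {A : Finset (Sym2 (Fin N))} (h : ¬ HasClique q A)
    {K : Finset (Fin N)} (hK : ∀ u ∈ K, ∀ v ∈ K, u ≠ v → s(u, v) ∈ A) : K.card < q := by
  by_contra hc
  obtain ⟨L, hL, hLc⟩ := exists_subset_card_eq (not_lt.1 hc)
  exact h ⟨L, hLc, fun u hu v hv huv => hK u (hL hu) v (hL hv) huv⟩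

/-- On the edges moved by `π`, the owner of `B` holds exactly the partners of the edges in `A`. -/
def Anti (π : Fin N → Fin N) (A B : Finset (Sym2 (Fin N))) : Prop :=
  ∀ e, Sym2.map π e ≠ e → (e ∈ B ↔ Sym2.map π e ∈ A)

section copy
variable {π : Fin N → Fin N} (hπ : Function.Involutive π)
include hπ

lemma map_map (e : Sym2 (Fin N)) : Sym2.map π (Sym2.map π e) = e := by
  induction e using Sym2.ind with
  | _ u v => simp [hπ u, hπ v]

lemma isDiag_map {e : Sym2 (Fin N)} (h : ¬ e.IsDiag) : ¬ (Sym2.map π e).IsDiag := by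
  induction e using Sym2.ind with
  | _ u v => simpa [hπ.injective.eq_iff] using h

lemma Anti.free {A B : Finset (Sym2 (Fin N))} (h : Anti π A B) {f : Sym2 (Fin N)}
    (hf : Free A B f) (hm : Sym2.map π f ≠ f) : Free A B (Sym2.map π f) := by
  refine ⟨isDiag_map hπ hf.1, fun hc => hf.2.2 ((h f hm).2 hc), fun hc => hf.2.1 ?_⟩
  have := (h (Sym2.map π f) (by rw [map_map hπ]; exact hm.symm)).1 hc
  rwa [map_map hπ] at this

lemma Anti.pair {A B : Finset (Sym2 (Fin N))} (h : Anti π A B) (f : Sym2 (Fin N)) :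
    Anti π (insert f A) (insert (Sym2.map π f) B) := by
  intro e he
  rw [mem_insert, mem_insert, h e he]
  have : e = Sym2.map π f ↔ Sym2.map π e = f :=
    ⟨fun h => by rw [h, map_map hπ], fun h => by rw [← h, map_map hπ]⟩
  rw [this]

lemma Anti.left {A B : Finset (Sym2 (Fin N))} (h : Anti π A B) {f : Sym2 (Fin N)}
    (hf : Sym2.map π f = f) : Anti π (insert f A) B := by
  intro e he
  rw [mem_insert, h e he]
  refine ⟨Or.inr, fun h' => h'.resolve_left fun h2 => he ?_⟩
  have h3 : e = f := by rw [← map_map hπ e, h2, hf]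
  rw [h2, h3]

omit hπ in
lemma Anti.right {A B : Finset (Sym2 (Fin N))} (h : Anti π A B) {f : Sym2 (Fin N)}
    (hf : Sym2.map π f = f) : Anti π A (insert f B) := by
  intro e he
  rw [mem_insert, ← h e he]
  exact ⟨fun h' => h'.resolve_left fun h2 => he (by rw [h2, hf]), Or.inr⟩

lemma copy_aux {s : ℕ} {A B : Finset (Sym2 (Fin N))} (h : Anti π A B) (hA : ¬ HasClique s A)
    {L : Finset (Fin N)} (hL : ∀ u ∈ L, ∀ v ∈ L, u ≠ v → s(u, v) ∈ B)
    (h1 : ∀ u ∈ L, ∀ v ∈ L, π u = u → π v = v → u = v) (h2 : ∀ u ∈ L, π u ∈ L → π u = u) :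
    L.card < s := by
  rw [← card_image_of_injective L hπ.injective]
  apply card_lt_of_clique hA
  intro x hx y hy hxy
  obtain ⟨u, hu, rfl⟩ := mem_image.1 hx
  obtain ⟨v, hv, rfl⟩ := mem_image.1 hy
  have huv : u ≠ v := fun h => hxy (by rw [h])
  refine (h s(u, v) ?_).1 (hL u hu v hv huv)
  intro hc
  rw [Sym2.map_mk, Sym2.eq_iff] at hc
  rcases hc with ⟨a1, a2⟩ | ⟨a1, a2⟩
  · exact huv (h1 u hu v hv a1 a2)
  · exact huv ((h2 u hu (a1 ▸ hv)).symm.trans a1)

/-- The copy lemma. -/
lemma copy {s : ℕ} {A B : Finset (Sym2 (Fin N))} (h : Anti π A B) (hd : Disjoint A B)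
    (hA : ¬ HasClique s A) {K : Finset (Fin N)} (hK : ∀ u ∈ K, ∀ v ∈ K, u ≠ v → s(u, v) ∈ B) :
    K.card ≤ s ∨ K.card + 2 ≤ (K.filter fun v => π v = v).card + s := by
  have key : ∀ u ∈ K, ∀ v ∈ K, π u ∈ K → π v ∈ K → u ≠ v → π v ≠ v → π u ≠ v → False := by
    intro u hu v hv hu' hv' huv h1 h2
    have h3 : Sym2.map π s(u, v) ≠ s(u, v) := by
      intro hc
      rw [Sym2.map_mk, Sym2.eq_iff] at hc
      rcases hc with ⟨-, a2⟩ | ⟨a1, -⟩
      · exact h1 a2
      · exact h2 a1
    have h4 := (h _ h3).1 (hK u hu v hv huv)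
    exact disjoint_left.1 hd h4 (hK _ hu' _ hv' (hπ.injective.ne huv))
  by_cases hU : ∃ u ∈ K, π u = u
  · right
    obtain ⟨u, hu, hu'⟩ := hU
    have hc := card_filter_add_card_filter_not (s := K) (fun v => π v = v)
    have hnot : u ∉ K.filter fun v => ¬ π v = v := by simp [hu']
    have hsub : insert u (K.filter fun v => ¬ π v = v) ⊆ K :=
      insert_subset hu (filter_subset _ _)
    have := copy_aux hπ h hA (L := insert u (K.filter fun v => ¬ π v = v))
      (fun x hx y hy hxy => hK x (hsub hx) y (hsub hy) hxy) (by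
        intro x hx y hy h1 h2
        simp only [mem_insert, mem_filter, h1, h2, not_true, and_false, or_false] at hx hy
        rw [hx, hy]) (by
        intro x hx hx'
        by_contra h1
        refine key u hu x (hsub hx) (hu'.symm ▸ hu) (hsub hx') ?_ h1 ?_
        · rintro rfl; exact h1 hu'
        · rw [hu']; rintro rfl; exact h1 hu')
    rw [card_insert_of_notMem hnot] at this
    omega
  · left
    push Not at hU
    by_cases hv : ∃ v ∈ K, π v ∈ K
    · obtain ⟨v, hv, hv'⟩ := hv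
      have := copy_aux hπ h hA (L := K.erase v)
        (fun x hx y hy hxy => hK x (mem_of_mem_erase hx) y (mem_of_mem_erase hy) hxy)
        (fun x hx y hy h1 => absurd h1 (hU x (mem_of_mem_erase hx))) (by
          intro x hx hx'
          exact (key x (mem_of_mem_erase hx) v hv (mem_of_mem_erase hx') hv'
            (ne_of_mem_erase hx) (hU v hv) (ne_of_mem_erase hx')).elim)
      rw [card_erase_of_mem hv] at this
      omega
    · push Not at hv
      exact (copy_aux hπ h hA hK (fun x hx y hy h1 => absurd h1 (hU x hx))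
        (fun x hx hx' => absurd hx' (hv x hx))).le

end copy

end Pool.Agent.MP_9fbb57_co.Off
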