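import Pool.Agent.MP_9fbb57_co.Defs

/-!
A clique with pendant edges at one vertex.
-/

namespace Pool.Agent.MP_9fbb57_co.Gen

/-- The complete graph on `Fin q` with `n` new vertices, each joined to the vertex `c` only. -/
def broom (q n : ℕ) (c : Fin q) : SimpleGraph (Fin q ⊕ Fin n) :=
  SimpleGraph.fromRel fun x y => (x.isLeft ∧ y.isLeft) ∨ x = Sum.inl c

end Pool.Agent.MP_9fbb57_co.Gen
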