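import Mathlib

/-!
The reverse `G`-game on a complete graph: definitions.
-/

namespace Pool.Agent.MP_9fbb57_co.Gen

open SimpleGraph

/-- The pair `u, v` is an edge of the complete graph that neither player owns yet. -/
def Unclaimed {V : Type} (X Y : SimpleGraph V) (u v : V) : Prop :=
  u ≠ v ∧ ¬ X.Adj u v ∧ ¬ Y.Adj u v

/-- Positions of the reverse `G`-game on the complete graph with vertex set `V`: the player to move
owns the edges of `X`, the other player owns the edges of `Y`.  A player who completes a copy of `G`
in his own graph loses at once.  `Wins G true X Y`: the player to move can force the other one to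
complete a copy of `G` first.  `Wins G false X Y`: the player who is not to move can force this.
A full board is a draw, so it is a win for nobody. -/
inductive Wins {α V : Type} (G : SimpleGraph α) : Bool → SimpleGraph V → SimpleGraph V → Prop
  | move (X Y : SimpleGraph V) (u v : V) (hfree : Unclaimed X Y u v)
      (hsafe : ¬ G.IsContained (X ⊔ edge u v)) (hnext : Wins G false Y (X ⊔ edge u v)) :
      Wins G true X Y
  | wait (X Y : SimpleGraph V) (hopen : ∃ u v, Unclaimed X Y u v)
      (hnext : ∀ u v, Unclaimed X Y u v → ¬ G.IsContained (X ⊔ edge u v) →
        Wins G true Y (X ⊔ edge u v)) :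
      Wins G false X Y

/-- One of the two players has a winning strategy in the reverse `G`-game on `K_N`. -/
def Decided {α : Type} (G : SimpleGraph α) (N : ℕ) : Prop :=
  Wins G true (⊥ : SimpleGraph (Fin N)) ⊥ ∨ Wins G false (⊥ : SimpleGraph (Fin N)) ⊥

/-- `w` is the reverse win number of `G`: the least `M` such that the game on `K_N` is decided
for every `N ≥ M`. -/
def IsWinNumber {α : Type} (G : SimpleGraph α) (w : ℕ) : Prop :=
  IsLeast {M : ℕ | ∀ N, M ≤ N → Decided G N} w

/-- `R` is the Ramsey number of `G`: the least `N` such that every 2-colouring of the edges of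
`K_N` has a monochromatic copy of `G`. -/
def IsRamseyNumber {α : Type} (G : SimpleGraph α) (R : ℕ) : Prop :=
  IsLeast {N : ℕ | ∀ X : SimpleGraph (Fin N), G.IsContained X ∨ G.IsContained Xᶜ} R

end Pool.Agent.MP_9fbb57_co.Gen
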