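import Mathlib

/-!
The reverse clique game on the complete graph with vertex set `Fin N`, with one clique size
for each player.
-/

namespace Pool.Agent.MP_9fbb57_co.Off

/-- The edge set `A` contains all edges of some complete graph on `q` vertices. -/
def HasClique {N : ℕ} (q : ℕ) (A : Finset (Sym2 (Fin N))) : Prop :=
  ∃ K : Finset (Fin N), K.card = q ∧ ∀ u ∈ K, ∀ v ∈ K, u ≠ v → s(u, v) ∈ A

/-- `e` is an edge of the complete graph that neither player has claimed. -/
def Free {N : ℕ} (A B : Finset (Sym2 (Fin N))) (e : Sym2 (Fin N)) : Prop :=
  ¬ e.IsDiag ∧ e ∉ A ∧ e ∉ B

/-- `Wins a b A B turn`: the player who owns `A` and loses on completing a clique of size `a`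
can force the opponent, who owns `B` and loses on completing a clique of size `b`, to complete
his clique first. `turn = true` means that the player moves next, `turn = false` that the
opponent does. When no edge is free the play is over and is a draw, so nobody wins there. -/
inductive Wins {N : ℕ} (a b : ℕ) :
    Finset (Sym2 (Fin N)) → Finset (Sym2 (Fin N)) → Bool → Prop
  | mine (A B : Finset (Sym2 (Fin N))) (e : Sym2 (Fin N)) : Free A B e →
      ¬ HasClique a (insert e A) → Wins a b (insert e A) B false → Wins a b A B true
  | theirs (A B : Finset (Sym2 (Fin N))) : (∃ e, Free A B e) →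
      (∀ e, Free A B e → ¬ HasClique b (insert e B) → Wins a b A (insert e B) true) →
      Wins a b A B false

/-- The reverse win number: the least `M` such that for all `N ≥ M` one of the players has a
winning strategy on the complete graph with `N` vertices, where the first player loses on being
first to own a clique of size `a` and the second player a clique of size `b`. -/
noncomputable def w (a b : ℕ) : ℕ :=
  sInf {M | ∀ N, M ≤ N → Wins (N := N) a b ∅ ∅ true ∨ Wins (N := N) b a ∅ ∅ false}

/-- The Ramsey number: the least `N` such that every graph on `N` vertices has a clique of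
size `a` or its complement has a clique of size `b`. -/
noncomputable def R (a b : ℕ) : ℕ :=
  sInf {N | ∀ G : SimpleGraph (Fin N), ¬ G.CliqueFree a ∨ ¬ Gᶜ.CliqueFree b}

end Pool.Agent.MP_9fbb57_co.Off
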