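import Pool.Agent.MP_9fbb57_co.Basic

namespace Pool.Agent.MP_9fbb57_co.Off

open Finset

variable {N : ℕ}

/-- The Ramsey property of `N` for the pair `a, b`. -/
def RP (a b N : ℕ) : Prop := ∀ G : SimpleGraph (Fin N), ¬ G.CliqueFree a ∨ ¬ Gᶜ.CliqueFree b

lemma ramsey_aux {V : Type} [DecidableEq V] (G : SimpleGraph V) (n : ℕ) :
    ∀ a b, a + b = n → ∀ S : Finset V, 2 ^ n ≤ S.card →
      (∃ K ⊆ S, G.IsNClique a K) ∨ ∃ K ⊆ S, Gᶜ.IsNClique b K := by
  classical
  induction n with
  | zero =>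
    intro a b h S _
    obtain rfl : a = 0 := by omega
    exact Or.inl ⟨∅, empty_subset _, SimpleGraph.isNClique_empty.2 rfl⟩
  | succ n ih =>
    intro a b h S hS
    rcases a with _ | a
    · exact Or.inl ⟨∅, empty_subset _, SimpleGraph.isNClique_empty.2 rfl⟩
    rcases b with _ | b
    · exact Or.inr ⟨∅, empty_subset _, SimpleGraph.isNClique_empty.2 rfl⟩
    have hpos : 0 < 2 ^ n := by positivity
    obtain ⟨v, hv⟩ : S.Nonempty := card_pos.1 (by omega)
    have hc := card_filter_add_card_filter_not (s := S.erase v) (fun x => G.Adj v x)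
    rw [card_erase_of_mem hv] at hc
    by_cases h1 : 2 ^ n ≤ ((S.erase v).filter fun x => G.Adj v x).card
    · rcases ih a (b + 1) (by omega) _ h1 with ⟨K, hK, hK'⟩ | ⟨K, hK, hK'⟩
      · exact Or.inl ⟨insert v K, insert_subset hv
          (hK.trans ((filter_subset _ _).trans (erase_subset _ _))),
          hK'.insert fun x hx => (mem_filter.1 (hK hx)).2⟩
      · exact Or.inr ⟨K, hK.trans ((filter_subset _ _).trans (erase_subset _ _)), hK'⟩
    · rcases ih (a + 1) b (by omega) ((S.erase v).filter fun x => ¬ G.Adj v x) (by omega) with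
        ⟨K, hK, hK'⟩ | ⟨K, hK, hK'⟩
      · exact Or.inl ⟨K, hK.trans ((filter_subset _ _).trans (erase_subset _ _)), hK'⟩
      · exact Or.inr ⟨insert v K, insert_subset hv
          (hK.trans ((filter_subset _ _).trans (erase_subset _ _))),
          hK'.insert fun x hx => (G.compl_adj _ _).2
            ⟨(ne_of_mem_erase (mem_filter.1 (hK hx)).1).symm, (mem_filter.1 (hK hx)).2⟩⟩

lemma RP_two_pow (a b : ℕ) : RP a b (2 ^ (a + b)) := fun G => by
  rcases ramsey_aux G (a + b) a b rfl univ (by simp) with ⟨K, -, hK⟩ | ⟨K, -, hK⟩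
  · exact Or.inl hK.not_cliqueFree
  · exact Or.inr hK.not_cliqueFree

lemma RP_R (a b : ℕ) : RP a b (R a b) :=
  Nat.sInf_mem (s := {N | RP a b N}) ⟨_, RP_two_pow a b⟩

lemma R_le {a b n : ℕ} (h : RP a b n) : R a b ≤ n := Nat.sInf_le (s := {N | RP a b N}) h

lemma RP.symm {a b n : ℕ} (h : RP a b n) : RP b a n := fun G => by
  have := h Gᶜ
  rw [compl_compl] at this
  exact this.symm

lemma R_comm (a b : ℕ) : R a b = R b a :=
  le_antisymm (R_le (RP_R b a).symm) (R_le (RP_R a b).symm)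

lemma RP.mono {a b n n' : ℕ} (h : RP a b n) (hn : n ≤ n') : RP a b n' := fun G => by
  refine (h (G.comap (Fin.castLEEmb hn))).imp (fun h1 h2 => h1 ?_) (fun h1 h2 => h1 ?_)
  · exact h2.comap (SimpleGraph.Embedding.comap _ _).isContained
  · refine h2.comap (SimpleGraph.Embedding.isContained ⟨Fin.castLEEmb hn, ?_⟩)
    intro x y
    simp

lemma RP.pred {s t n : ℕ} (hs : 2 ≤ s) (h : RP s (t + 1) (n + 1)) : RP s t n := fun G => by
  classical
  refine (h (G.map Fin.castSuccEmb)).imp (fun h1 h2 => h1 ?_) (fun h1 h2 => h1 ?_)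
  · intro K hK
    obtain ⟨L, hL, -⟩ := (SimpleGraph.isNClique_map_iff (by omega)).1 hK
    exact h2 L hL
  · intro K hK
    have hc : t ≤ (univ.filter fun x : Fin n => x.castSucc ∈ K).card := by
      have h3 : K.erase (Fin.last n) ⊆
          (univ.filter fun x : Fin n => x.castSucc ∈ K).image Fin.castSucc := by
        intro x hx
        obtain ⟨y, rfl⟩ := Fin.exists_castSucc_eq.2 (ne_of_mem_erase hx)
        exact mem_image.2 ⟨y, by simpa using mem_of_mem_erase hx, rfl⟩
      have h4 := (card_le_card h3).trans card_image_le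
      have h5 := pred_card_le_card_erase (s := K) (a := Fin.last n)
      rw [hK.card_eq] at h5
      omega
    obtain ⟨L, hL, hLc⟩ := exists_subset_card_eq hc
    refine h2 L ⟨fun x hx y hy hxy => ?_, hLc⟩
    have := hK.isClique (mem_filter.1 (hL hx)).2 (mem_filter.1 (hL hy)).2
      (fun h => hxy (Fin.castSucc_injective _ h))
    rw [SimpleGraph.compl_adj] at this ⊢
    exact ⟨hxy, fun h => this.2 (SimpleGraph.map_adj_apply.2 h)⟩

lemma RP.anti {s t t' n : ℕ} (h : RP s t' n) (ht : t ≤ t') : RP s t n := fun G =>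
  (h G).imp id fun h1 h2 => h1 (h2.mono ht)

lemma R_lt {s t : ℕ} (hs : 2 ≤ s) (ht : s + 2 ≤ t) : R s (s + 1) < R s t := by
  have h := RP_R s t
  rcases hn : R s t with _ | n
  · rw [hn] at h
    rcases h ⊥ with h | h <;>
      exact absurd (SimpleGraph.cliqueFree_of_card_lt (by simp; omega)) h
  · rw [hn] at h
    exact Nat.lt_succ_of_le (R_le ((h.anti ht).pred hs))

lemma exists_free {a b : ℕ} (hN : RP a b N) {A B : Finset (Sym2 (Fin N))}
    (hA : ¬ HasClique a A) (hB : ¬ HasClique b B) : ∃ e, Free A B e := by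
  by_contra hc
  push Not at hc
  rcases hN (SimpleGraph.fromEdgeSet (A : Set (Sym2 (Fin N)))) with h | h
  · refine h fun K hK => hA ⟨K, hK.card_eq, fun u hu v hv huv => ?_⟩
    exact ((SimpleGraph.fromEdgeSet_adj _).1 (hK.isClique hu hv huv)).1
  · refine h fun K hK => hB ⟨K, hK.card_eq, fun u hu v hv huv => ?_⟩
    have h1 := ((SimpleGraph.compl_adj _ _ _).1 (hK.isClique hu hv huv)).2
    rw [SimpleGraph.fromEdgeSet_adj] at h1
    by_contra h2
    exact hc s(u, v) ⟨by simpa using huv, fun h => h1 ⟨h, huv⟩, h2⟩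

lemma not_clique_insert {q t : ℕ} {B : Finset (Sym2 (Fin N))} (h : ¬ HasClique q B) (ht : q < t)
    (x : Sym2 (Fin N)) : ¬ HasClique t (insert x B) := by
  rintro ⟨K, hK, h'⟩
  have h1 : (K.erase x.out.1).card < q := by
    refine card_lt_of_clique h fun u hu v hv huv => ?_
    refine (mem_insert.1 (h' u (mem_of_mem_erase hu) v (mem_of_mem_erase hv) huv)).resolve_left ?_
    intro hx
    have h2 : x.out.1 ∈ s(u, v) := hx ▸ x.out_fst_mem
    rcases Sym2.mem_iff.1 h2 with h3 | h3
    · exact ne_of_mem_erase hu h3.symm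
    · exact ne_of_mem_erase hv h3.symm
  have h5 := pred_card_le_card_erase (s := K) (a := x.out.1)
  omega

lemma rev_copy {s : ℕ} {A B : Finset (Sym2 (Fin N))} (h : Anti Fin.rev A B) (hd : Disjoint A B)
    (hA : ¬ HasClique s A) : ¬ HasClique (s + 1) B := by
  rintro ⟨K, hK, h'⟩
  have h1 : (K.filter fun v => Fin.rev v = v).card ≤ 1 := by
    refine card_le_one.2 fun u hu v hv => ?_
    have a1 := congrArg Fin.val (mem_filter.1 hu).2
    have a2 := congrArg Fin.val (mem_filter.1 hv).2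
    rw [Fin.val_rev] at a1 a2
    have := u.2
    have := v.2
    ext
    omega
  rcases copy Fin.rev_involutive h hd hA h' with h2 | h2 <;> omega

/-- The invariant of the strategy; `B` belongs to the winner, `A` to the opponent. -/
def InvA (s : ℕ) (B A : Finset (Sym2 (Fin N))) : Prop :=
  Disjoint A B ∧ ¬ HasClique s A ∧ (Anti Fin.rev A B ∨ ∃ x B0, B = insert x B0 ∧
    Anti Fin.rev A B0 ∧ Free A B (Sym2.map Fin.rev x) ∧ ∀ e, Sym2.map Fin.rev e = e → ¬ Free A B e)

lemma disjoint_of_free_right {A B : Finset (Sym2 (Fin N))} {e : Sym2 (Fin N)} (hd : Disjoint A B)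
    (he : Free A B e) : Disjoint A (insert e B) := disjoint_insert_right.2 ⟨he.2.1, hd⟩

lemma disjoint_of_free_left {A B : Finset (Sym2 (Fin N))} {e : Sym2 (Fin N)} (hd : Disjoint A B)
    (he : Free A B e) : Disjoint (insert e A) B := disjoint_insert_left.2 ⟨he.2.2, hd⟩

lemma moveA {s t : ℕ} (ht : s + 2 ≤ t) (hN : RP s (s + 1) N) {A B : Finset (Sym2 (Fin N))}
    (h : Anti Fin.rev A B) (hd : Disjoint A B) (hA : ¬ HasClique s A) :
    ∃ e, Free B A e ∧ ¬ HasClique t (insert e B) ∧ InvA s (insert e B) A := by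
  have hB := rev_copy h hd hA
  by_cases hF : ∃ e, Sym2.map Fin.rev e = e ∧ Free A B e
  · obtain ⟨e, he, hf⟩ := hF
    exact ⟨e, hf.symm, not_clique_insert hB (by omega) e, disjoint_of_free_right hd hf, hA,
      Or.inl (h.right he)⟩
  · push Not at hF
    obtain ⟨x, hx⟩ := exists_free hN hA hB
    have hm : Sym2.map Fin.rev x ≠ x := fun h => hF x h hx
    have h1 := h.free Fin.rev_involutive hx hm
    refine ⟨x, hx.symm, not_clique_insert hB (by omega) x, disjoint_of_free_right hd hx, hA,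
      Or.inr ⟨x, B, rfl, h, ⟨h1.1, h1.2.1, ?_⟩, fun e he hf => hF e he
        ⟨hf.1, hf.2.1, fun h => hf.2.2 (mem_insert_of_mem h)⟩⟩⟩
    rw [mem_insert, not_or]
    exact ⟨hm, h1.2.2⟩

lemma winsA {s t : ℕ} (ht : s + 2 ≤ t) (hN : RP s (s + 1) N) :
    ∀ B A : Finset (Sym2 (Fin N)), InvA s B A → Wins t s B A false := by
  have hπ : Function.Involutive (Fin.rev : Fin N → Fin N) := Fin.rev_involutive
  refine wins_of_inv _ ?_
  rintro B A ⟨hd, hA, h | ⟨x, B0, rfl, h, hx, hF⟩⟩
  · refine ⟨(exists_free hN hA (rev_copy h hd hA)).imp fun e he => he.symm, fun f hf hc => ?_⟩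
    have hd' := disjoint_of_free_left hd hf.symm
    by_cases hm : Sym2.map Fin.rev f = f
    · exact moveA ht hN (h.left hπ hm) hd' hc
    · have h1 := h.free hπ hf.symm hm
      have h2 : Free (insert f A) B (Sym2.map Fin.rev f) :=
        ⟨h1.1, by rw [mem_insert, not_or]; exact ⟨hm, h1.2.1⟩, h1.2.2⟩
      exact ⟨_, h2.symm, not_clique_insert (rev_copy h hd hA) (by omega) _,
        disjoint_of_free_right hd' h2, hc, Or.inl (h.pair hπ f)⟩
  · refine ⟨⟨_, hx.symm⟩, fun f hf hc => ?_⟩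
    have hd' := disjoint_of_free_left hd hf.symm
    by_cases hfx : f = Sym2.map Fin.rev x
    · have h1 := h.pair hπ f
      rw [hfx, map_map hπ, ← hfx] at h1
      exact moveA ht hN h1 hd' hc
    · have hm : Sym2.map Fin.rev f ≠ f := fun h => hF f h hf.symm
      have h1 := h.free hπ ⟨hf.1, hf.2.2, fun h => hf.2.1 (mem_insert_of_mem h)⟩ hm
      have h2 : Free (insert f A) (insert x B0) (Sym2.map Fin.rev f) := by
        refine ⟨h1.1, ?_, ?_⟩ <;> rw [mem_insert, not_or]
        · exact ⟨hm, h1.2.1⟩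
        · exact ⟨fun h => hfx (by rw [← h, map_map hπ]), h1.2.2⟩
      have h3 := h.pair hπ f
      have hd2 := disjoint_of_free_right hd' h2
      have hd3 : Disjoint (insert f A) (insert (Sym2.map Fin.rev f) B0) :=
        hd2.mono_right (insert_subset_insert _ (subset_insert _ _))
      refine ⟨_, h2.symm, ?_, hd2, hc, Or.inr ⟨x, _, insert_comm _ _ _, h3, ⟨hx.1, ?_, ?_⟩,
        fun e he hf' => hF e he ⟨hf'.1, fun h => hf'.2.1 (mem_insert_of_mem h),
          fun h => hf'.2.2 (mem_insert_of_mem h)⟩⟩⟩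
      · rw [insert_comm]
        exact not_clique_insert (rev_copy h3 hd3 hc) (by omega) _
      · rw [mem_insert, not_or]
        exact ⟨fun h => hfx h.symm, hx.2.1⟩
      · rw [mem_insert, not_or]
        refine ⟨fun h => hf.2.1 ?_, hx.2.2⟩
        have : x = f := by rw [← map_map hπ x, h, map_map hπ]
        rw [← this]
        exact mem_insert_self _ _

lemma not_hasClique_empty {s : ℕ} (hs : 2 ≤ s) :
    ¬ HasClique s (∅ : Finset (Sym2 (Fin N))) := by
  rintro ⟨K, hK, h⟩
  obtain ⟨u, hu, v, hv, huv⟩ := one_lt_card.1 (by omega : 1 < K.card)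
  exact notMem_empty _ (h u hu v hv huv)

lemma anti_empty (π : Fin N → Fin N) : Anti π ∅ ∅ := fun e _ => by simp

/-- The player who avoids the larger clique wins once `N ≥ R(s, s+1)`, whoever starts. -/
theorem strict_wins {s t : ℕ} (hs : 2 ≤ s) (ht : s + 2 ≤ t) (hN : R s (s + 1) ≤ N) :
    Wins (N := N) t s ∅ ∅ false ∧ Wins (N := N) t s ∅ ∅ true := by
  have hR := (RP_R s (s + 1)).mono hN
  refine ⟨winsA ht hR _ _ ⟨disjoint_empty_left _, not_hasClique_empty hs,
    Or.inl (anti_empty _)⟩, ?_⟩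
  obtain ⟨e, h1, h2, h3⟩ := moveA ht hR (anti_empty _) (disjoint_empty_left _)
    (not_hasClique_empty hs)
  exact Wins.mine _ _ e h1 h2 (winsA ht hR _ _ h3)

end Pool.Agent.MP_9fbb57_co.Off
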