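import Pool.Agent.MP_9fbb57_co.Order
import Pool.Agent.MP_9fbb57_co.Strict

namespace Pool.Agent.MP_9fbb57_co.Off

open Finset

lemma sum_weight {E : Type} [Fintype E] [DecidableEq E] (f : Bool → ℝ) (hf : f true + f false = 1)
    (x : Bool) (X : Finset E) :
    ∑ c : E → Bool, ∏ e, (if e ∈ X ∧ c e ≠ x then 0 else f (c e)) = f x ^ X.card := by
  rw [← Fintype.prod_sum fun e b => if e ∈ X ∧ b ≠ x then 0 else f b]
  have : ∀ e, (∑ b, if e ∈ X ∧ b ≠ x then 0 else f b) = if e ∈ X then f x else 1 := by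
    intro e
    by_cases he : e ∈ X <;> cases x <;> simp [he, hf]
  simp only [this]
  rw [prod_ite_mem, univ_inter, prod_const]

/-- The first moment bound. -/
lemma first_moment {a b N : ℕ} (h : RP a b N) {p : ℝ} (h0 : 0 ≤ p) (h1 : p ≤ 1) :
    1 ≤ N.choose a * p ^ a.choose 2 + N.choose b * (1 - p) ^ b.choose 2 := by
  let f : Bool → ℝ := fun x => if x then p else 1 - p
  have hf : f true + f false = 1 := by simp [f]
  have hf0 : ∀ x, 0 ≤ f x := fun x => by cases x <;> simp [f, h0, h1]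
  let ω : Bool → Finset (Sym2 (Fin N)) → (Sym2 (Fin N) → Bool) → ℝ := fun x X c =>
    ∏ e, (if e ∈ X ∧ c e ≠ x then 0 else f (c e))
  have hω : ∀ x X c, 0 ≤ ω x X c := fun x X c =>
    prod_nonneg fun e _ => by split_ifs <;> simp [hf0]
  have hq : ∀ x q, ∑ c, ∑ K ∈ powersetCard q (univ : Finset (Fin N)), ω x (edges K) c =
      N.choose q * f x ^ q.choose 2 := by
    intro x q
    rw [sum_comm, sum_congr rfl (g := fun _ => f x ^ q.choose 2) fun K hK => by
      rw [sum_weight f hf, card_edges, (mem_powersetCard.1 hK).2]]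
    simp
  have hK : ∀ x q c, HasClique q (univ.filter fun e => c e = x) →
      ω true ∅ c ≤ ∑ K ∈ powersetCard q (univ : Finset (Fin N)), ω x (edges K) c := by
    rintro x q c ⟨K, hK, hK'⟩
    refine le_trans (le_of_eq (prod_congr rfl fun e _ => ?_))
      (single_le_sum (f := fun K => ω x (edges K) c) (fun _ _ => hω _ _ _)
        (mem_powersetCard.2 ⟨subset_univ K, hK⟩))
    rw [if_neg (by simp), if_neg]
    induction e using Sym2.ind with
    | _ u v =>
      rw [mem_edges]
      exact fun h => h.2 (mem_filter.1 (hK' u h.1.1 v h.1.2.1 h.1.2.2)).2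
  have key : ∀ c, ω true ∅ c ≤ ∑ K ∈ powersetCard a (univ : Finset (Fin N)), ω true (edges K) c +
      ∑ K ∈ powersetCard b (univ : Finset (Fin N)), ω false (edges K) c := by
    intro c
    have a1 : 0 ≤ ∑ K ∈ powersetCard a (univ : Finset (Fin N)), ω true (edges K) c :=
      sum_nonneg fun _ _ => hω _ _ _
    have a2 : 0 ≤ ∑ K ∈ powersetCard b (univ : Finset (Fin N)), ω false (edges K) c :=
      sum_nonneg fun _ _ => hω _ _ _
    by_cases b1 : HasClique a (univ.filter fun e => c e = true)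
    · linarith [hK true a c b1]
    by_cases b2 : HasClique b (univ.filter fun e => c e = false)
    · linarith [hK false b c b2]
    obtain ⟨e, -, h2, h3⟩ := exists_free h b1 b2
    simp at h2 h3
    simp [h2] at h3
  have h2 := sum_le_sum fun c (_ : c ∈ univ) => key c
  rw [sum_add_distrib, hq, hq, sum_weight f hf] at h2
  simpa [f] using h2

lemma R_ge {s t : ℕ} (hs : 40 ≤ s) (ht : 2 * s + 1 ≤ t) : (3 / 2 : ℝ) ^ s ≤ R s t := by
  by_contra hc
  have hN := (not_le.1 hc).le
  have h1 := first_moment (RP_R s t) (p := 2 / 5) (by norm_num) (by norm_num)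
  generalize R s t = N at hN h1
  have key : ∀ (q j : ℕ) (p θ : ℝ), 0 ≤ p → p ≤ 1 → j * q ≤ q.choose 2 → 1 ≤ q → θ ≤ 1 →
      (3 / 2 : ℝ) ^ s * p ^ j ≤ θ → N.choose q * p ^ q.choose 2 ≤ θ := by
    intro q j p θ p0 p1 hj hq θ1 hθ
    have a1 : (N.choose q : ℝ) ≤ ((3 / 2 : ℝ) ^ s) ^ q := by
      refine le_trans ?_ (pow_le_pow_left₀ (Nat.cast_nonneg N) hN q)
      exact_mod_cast Nat.choose_le_pow N q
    calc _ ≤ ((3 / 2 : ℝ) ^ s) ^ q * (p ^ j) ^ q := by
          rw [← pow_mul p]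
          exact mul_le_mul a1 (pow_le_pow_of_le_one p0 p1 hj) (by positivity) (by positivity)
      _ ≤ θ ^ q := by
          rw [← mul_pow]
          exact pow_le_pow_left₀ (by positivity) hθ q
      _ ≤ θ := pow_le_of_le_one (le_trans (by positivity) hθ) θ1 (by omega)
  have b1 : N.choose s * (2 / 5 : ℝ) ^ s.choose 2 ≤ 1 / 3 := by
    obtain ⟨j, hj, hj'⟩ : ∃ j, 2 * j + 1 ≤ s ∧ s ≤ 2 * j + 2 := ⟨(s - 1) / 2, by omega, by omega⟩
    refine key s j _ _ (by norm_num) (by norm_num) ?_ (by omega) (by norm_num) ?_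
    · obtain ⟨u, rfl⟩ : ∃ u, s = u + 1 := ⟨s - 1, by omega⟩
      have := two_mul_choose_two u
      nlinarith
    · calc _ ≤ (3 / 2 : ℝ) ^ (2 * j + 2) * (2 / 5) ^ j :=
            mul_le_mul_of_nonneg_right (pow_le_pow_right₀ (by norm_num) hj') (by positivity)
        _ = 9 / 4 * (9 / 10) ^ j := by
            rw [pow_add, pow_mul, mul_right_comm, ← mul_pow]; norm_num [mul_comm]
        _ ≤ 9 / 4 * (9 / 10) ^ 19 := mul_le_mul_of_nonneg_left
            (pow_le_pow_of_le_one (by norm_num) (by norm_num) (by omega)) (by norm_num)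
        _ ≤ _ := by norm_num
  have b2 : N.choose t * (1 - 2 / 5 : ℝ) ^ t.choose 2 ≤ 1 / 3 := by
    refine key t s _ _ (by norm_num) (by norm_num) ?_ (by omega) (by norm_num) ?_
    · obtain ⟨u, rfl⟩ : ∃ u, t = u + 1 := ⟨t - 1, by omega⟩
      have := two_mul_choose_two u
      nlinarith
    · calc _ = (9 / 10 : ℝ) ^ s := by rw [← mul_pow]; norm_num
        _ ≤ (9 / 10) ^ 19 := pow_le_pow_of_le_one (by norm_num) (by norm_num) (by omega)
        _ ≤ _ := by norm_num
  linarith

/-- The ratio of the reverse win number to the Ramsey number is exponentially small. -/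
theorem ratio_le {a b : ℕ} (h1 : 400 ≤ min a b) (h2 : 2 * min a b + 20 ≤ max a b) :
    (w a b : ℝ) / R a b ≤ 128 * (min a b : ℕ) * (19 / 20) ^ min a b := by
  have h3 := (order_real h1 h2).2
  have h4 : (3 / 2 : ℝ) ^ min a b ≤ R a b := by
    rcases le_total a b with h | h
    · rw [min_eq_left h] at h1 h2 ⊢
      rw [max_eq_right h] at h2
      exact R_ge (by omega) (by omega)
    · rw [min_eq_right h] at h1 h2 ⊢
      rw [max_eq_left h] at h2
      rw [R_comm]
      exact R_ge (by omega) (by omega)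
  generalize min a b = s at *
  have h5 : Real.sqrt 2 ^ s ≤ (19 / 20) ^ s * (3 / 2) ^ s := by
    rw [← mul_pow]
    exact pow_le_pow_left₀ (Real.sqrt_nonneg _) (Real.sqrt_le_iff.2 (by norm_num)) s
  rw [div_le_iff₀ (lt_of_lt_of_le (by positivity) h4)]
  calc _ ≤ _ := h3
    _ ≤ 128 * (s : ℝ) * ((19 / 20) ^ s * (3 / 2) ^ s) := by gcongr
    _ ≤ 128 * (s : ℝ) * ((19 / 20) ^ s * R a b) := by gcongr
    _ = _ := by ring

end Pool.Agent.MP_9fbb57_co.Off
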