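import Pool.Agent.MP_9fbb57_co.Strict

/-!
Strategy stealing with slack: the player who avoids the larger clique copies a strategy that does
not lose the symmetric game for the smaller clique, up to one edge.
-/

namespace Pool.Agent.MP_9fbb57_co.Off

open Finset

variable {N : ℕ}

lemma not_both {a b : ℕ} {A B : Finset (Sym2 (Fin N))} {c : Bool} (h : Wins a b A B c) :
    ¬ Wins b a B A (!c) := by
  induction h with
  | mine A B e he hc _ ih =>
    intro h2
    cases h2 with
    | theirs _ _ _ h3 => exact ih (h3 e he.symm hc)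
  | theirs A B _ _ ih =>
    intro h2
    cases h2 with
    | mine _ _ e he hc h3 => exact ih e he.symm hc h3

lemma reply {s : ℕ} {A B : Finset (Sym2 (Fin N))} (h : ¬ Wins s s A B false)
    (hf : ∃ e, Free A B e) :
    ∃ e, Free A B e ∧ ¬ HasClique s (insert e B) ∧ ¬ Wins s s A (insert e B) true := by
  by_contra hc
  push Not at hc
  exact h (Wins.theirs A B hf hc)

lemma free_of_almost {s : ℕ} (hN : R s s < N) {A B B' : Finset (Sym2 (Fin N))} {x : Sym2 (Fin N)}
    (hA : ¬ HasClique s A) (hB : ¬ HasClique s B') (hx : B ⊆ insert x B') :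
    ∃ e, Free A B e := by
  obtain ⟨n, rfl⟩ : ∃ n, N = n + 1 := ⟨N - 1, by omega⟩
  have hR : RP s s n := (RP_R s s).mono (by omega)
  by_contra hc
  push Not at hc
  let f : Fin n ↪ Fin (n + 1) := Fin.succAboveEmb x.out.1
  have hf : ∀ u, f u ≠ x.out.1 := fun u => Fin.succAbove_ne _ u
  rcases hR ((SimpleGraph.fromEdgeSet (A : Set (Sym2 (Fin (n + 1))))).comap f) with h | h
  · refine h fun K hK => hA ⟨K.map f, by rw [card_map, hK.card_eq], ?_⟩
    intro u hu v hv huv
    obtain ⟨u, hu', rfl⟩ := mem_map.1 hu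
    obtain ⟨v, hv', rfl⟩ := mem_map.1 hv
    exact ((SimpleGraph.fromEdgeSet_adj _).1 (hK.isClique hu' hv' fun h => huv (by rw [h]))).1
  · refine h fun K hK => hB ⟨K.map f, by rw [card_map, hK.card_eq], ?_⟩
    intro u hu v hv huv
    obtain ⟨u, hu', rfl⟩ := mem_map.1 hu
    obtain ⟨v, hv', rfl⟩ := mem_map.1 hv
    have h1 := ((SimpleGraph.compl_adj _ _ _).1 (hK.isClique hu' hv' fun h => huv (by rw [h]))).2
    rw [SimpleGraph.comap_adj, SimpleGraph.fromEdgeSet_adj] at h1
    have h2 : s(f u, f v) ∈ B := by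
      by_contra h2
      exact hc s(f u, f v) ⟨by simpa using huv, fun h => h1 ⟨h, huv⟩, h2⟩
    refine (mem_insert.1 (hx h2)).resolve_left fun h3 => ?_
    have h4 : x.out.1 ∈ s(f u, f v) := h3 ▸ x.out_fst_mem
    rcases Sym2.mem_iff.1 h4 with h5 | h5
    · exact hf u h5.symm
    · exact hf v h5.symm

/-- The real position `A, B` is shadowed by the position `A', B'` up to the edge `x`. -/
def Shadow (s : ℕ) (A B A' B' : Finset (Sym2 (Fin N))) (x : Sym2 (Fin N)) : Prop :=
  A' ⊆ A ∧ B ⊆ insert x B' ∧ B' ⊆ A ∪ B ∧ A ⊆ insert x (A' ∪ B') ∧ ¬ HasClique s A ∧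
    ¬ HasClique s B'

lemma Shadow.free {s : ℕ} {A B A' B' : Finset (Sym2 (Fin N))} {x e : Sym2 (Fin N)}
    (h : Shadow s A B A' B' x) (he : Free A B e) : Free A' B' e :=
  ⟨he.1, fun h1 => he.2.1 (h.1 h1), fun h1 => (mem_union.1 (h.2.2.1 h1)).elim he.2.1 he.2.2⟩

/-- The invariant when the opponent, who owns `A`, is to move. -/
def InvS (s : ℕ) (B A : Finset (Sym2 (Fin N))) : Prop :=
  ∃ A' B' x, Shadow s A B A' B' x ∧ ¬ Wins s s A' B' true

lemma moveS {s t : ℕ} (ht : s < t) (hN : R s s < N) {A B A' B' : Finset (Sym2 (Fin N))}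
    {x : Sym2 (Fin N)} (h : Shadow s A B A' B' x) (hw : ¬ Wins s s A' B' false) :
    ∃ e, Free B A e ∧ ¬ HasClique t (insert e B) ∧ InvS s (insert e B) A := by
  obtain ⟨y, hy⟩ := free_of_almost hN h.2.2.2.2.1 h.2.2.2.2.2 h.2.1
  obtain ⟨r, hr, hc, hw'⟩ := reply hw ⟨y, h.free hy⟩
  obtain ⟨h1, h2, h3, h4, h5, h6⟩ := h
  by_cases hf : Free A B r
  · have h7 : insert r B ⊆ insert x (insert r B') := by
      rw [insert_comm]
      exact insert_subset_insert _ h2
    refine ⟨r, hf.symm, fun h => not_clique_insert hc ht x (h.mono h7), A', insert r B', x,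
      ⟨h1, h7, ?_, ?_, h5, hc⟩, hw'⟩
    · rw [union_insert]
      exact insert_subset_insert _ h3
    · exact h4.trans (insert_subset_insert _ (union_subset_union_right (subset_insert _ _)))
  · have hm : r ∈ A ∪ B := by
      by_contra hm
      rw [mem_union, not_or] at hm
      exact hf ⟨hr.1, hm.1, hm.2⟩
    have hx : r = x := by
      rcases mem_union.1 hm with h | h
      · exact (mem_insert.1 (h4 h)).resolve_right fun h => (mem_union.1 h).elim hr.2.1 hr.2.2
      · exact (mem_insert.1 (h2 h)).resolve_right hr.2.2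
    subst hx
    have h7 : insert y B ⊆ insert y (insert r B') := insert_subset_insert _ h2
    refine ⟨y, hy.symm, fun h => not_clique_insert hc ht y (h.mono h7), A', insert r B', y,
      ⟨h1, h7, ?_, ?_, h5, hc⟩, hw'⟩
    · exact (insert_subset hm h3).trans (union_subset_union_right (subset_insert _ _))
    · rw [union_insert]
      exact h4.trans (subset_insert _ _)

lemma winsS {s t : ℕ} (ht : s < t) (hN : R s s < N) :
    ∀ B A : Finset (Sym2 (Fin N)), InvS s B A → Wins t s B A false := by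
  refine wins_of_inv _ ?_
  rintro B A ⟨A', B', x, h, hw⟩
  refine ⟨(free_of_almost hN h.2.2.2.2.1 h.2.2.2.2.2 h.2.1).imp fun e he => he.symm,
    fun f hf hc => ?_⟩
  have hf' := h.free hf.symm
  obtain ⟨h1, h2, h3, h4, h5, h6⟩ := h
  refine moveS ht hN (A' := insert f A') (B' := B') (x := x)
    ⟨insert_subset_insert _ h1, h2, h3.trans (union_subset_union_left (subset_insert _ _)), ?_, hc,
      h6⟩ fun h => hw (Wins.mine _ _ f hf' (fun h => hc (h.mono (insert_subset_insert _ h1))) h)
  rw [insert_union, insert_comm]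
  exact insert_subset_insert _ h4

/-- The player who avoids the larger clique wins once `N > R(s, s)`, whoever starts. -/
theorem steal_wins {s t : ℕ} (hs : 2 ≤ s) (ht : s < t) (hN : R s s < N) :
    Wins (N := N) t s ∅ ∅ true ∧ Wins (N := N) t s ∅ ∅ false := by
  have h0 : ¬ HasClique s (∅ : Finset (Sym2 (Fin N))) := not_hasClique_empty hs
  let z : Fin N := ⟨0, by omega⟩
  obtain ⟨y, hy⟩ := free_of_almost hN (B := ∅) (x := s(z, z)) h0 h0 (empty_subset _)
  by_cases hw : Wins (N := N) s s ∅ ∅ true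
  · have hw' : ¬ Wins (N := N) s s ∅ ∅ false := not_both hw
    constructor
    · obtain ⟨e, h1, h2, h3⟩ := moveS ht hN (A := ∅) (B := ∅) (A' := ∅) (B' := ∅) (x := y)
        ⟨subset_rfl, empty_subset _, empty_subset _, empty_subset _, h0, h0⟩ hw'
      exact Wins.mine _ _ e h1 h2 (winsS ht hN _ _ h3)
    · refine Wins.theirs _ _ ⟨y, hy⟩ fun f _ hc => ?_
      obtain ⟨e, h1, h2, h3⟩ := moveS ht hN (A := insert f ∅) (B := ∅) (A' := ∅) (B' := ∅) (x := f)
        ⟨empty_subset _, empty_subset _, empty_subset _,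
          insert_subset_insert _ (empty_subset _), hc, h0⟩ hw'
      exact Wins.mine _ _ e h1 h2 (winsS ht hN _ _ h3)
  · constructor
    · exact Wins.mine _ _ y hy (not_clique_insert h0 ht y) (winsS ht hN _ _
        ⟨∅, ∅, y, ⟨subset_rfl, subset_rfl, empty_subset _, empty_subset _, h0, h0⟩, hw⟩)
    · exact winsS ht hN _ _
        ⟨∅, ∅, y, ⟨subset_rfl, empty_subset _, empty_subset _, empty_subset _, h0, h0⟩, hw⟩

lemma RP.pred_two {s n : ℕ} (hs : 3 ≤ s) (h : RP s (s + 1) (n + 2)) : RP s s n := fun G => by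
  classical
  let f : Fin n ↪ Fin (n + 2) := Fin.castLEEmb (by omega)
  let H : SimpleGraph (Fin (n + 2)) :=
    { Adj := fun u v => (G.map f).Adj u v ∨ (u ≠ v ∧ n ≤ u.1 ∧ n ≤ v.1)
      symm := ⟨fun u v h => h.imp (fun h => h.symm) fun h => ⟨h.1.symm, h.2.2, h.2.1⟩⟩
      loopless := ⟨fun u h => h.elim (fun h => h.ne rfl) fun h => h.1 rfl⟩ }
  have hlt : ∀ u v, (G.map f).Adj u v → u.1 < n ∧ v.1 < n := by
    intro u v h
    obtain ⟨a, b, -, rfl, rfl⟩ := (SimpleGraph.map_adj _ _ _ _).1 h
    exact ⟨a.2, b.2⟩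
  refine (h H).imp (fun h1 h2 => h1 ?_) (fun h1 h2 => h1 ?_)
  · intro K hK
    by_cases hb : ∃ u ∈ K, n ≤ u.1
    · obtain ⟨u, hu, hu'⟩ := hb
      have h3 : K ⊆ {⟨n, by omega⟩, ⟨n + 1, by omega⟩} := by
        intro v hv
        have h4 : n ≤ v.1 := by
          by_cases huv : u = v
          · exact huv ▸ hu'
          · rcases hK.isClique hu hv huv with h | h
            · have := hlt _ _ h
              omega
            · exact h.2.2
        have := v.2
        simp only [mem_insert, mem_singleton, Fin.ext_iff]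
        omega
      have h5 := (card_le_card h3).trans card_le_two
      rw [hK.card_eq] at h5
      omega
    · push Not at hb
      have h3 : (G.map f).IsNClique s K := by
        refine ⟨fun u hu v hv huv => ?_, hK.card_eq⟩
        rcases hK.isClique hu hv huv with h | h
        · exact h
        · have := hb u hu
          omega
      obtain ⟨L, hL, -⟩ := (SimpleGraph.isNClique_map_iff (by omega)).1 h3
      exact h2 L hL
  · intro K hK
    have hc : s ≤ (univ.filter fun x : Fin n => f x ∈ K).card := by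
      have h3 : K.filter (fun u => u.1 < n) ⊆ (univ.filter fun x : Fin n => f x ∈ K).map f := by
        intro x hx
        obtain ⟨hx1, hx2⟩ := mem_filter.1 hx
        exact mem_map.2 ⟨⟨x.1, hx2⟩, mem_filter.2 ⟨mem_univ _, hx1⟩, rfl⟩
      have h4 := card_le_card h3
      rw [card_map] at h4
      have h5 : (K.filter fun u => ¬ u.1 < n).card ≤ 1 := by
        refine card_le_one.2 fun u hu v hv => ?_
        by_contra huv
        obtain ⟨hu1, hu2⟩ := mem_filter.1 hu
        obtain ⟨hv1, hv2⟩ := mem_filter.1 hv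
        exact ((SimpleGraph.compl_adj _ _ _).1 (hK.isClique hu1 hv1 huv)).2
          (Or.inr ⟨huv, not_lt.1 hu2, not_lt.1 hv2⟩)
      have h6 := card_filter_add_card_filter_not (s := K) (fun u => u.1 < n)
      rw [hK.card_eq] at h6
      omega
    obtain ⟨L, hL, hLc⟩ := exists_subset_card_eq hc
    refine h2 L ⟨fun x hx y hy hxy => ?_, hLc⟩
    have := hK.isClique (mem_filter.1 (hL hx)).2 (mem_filter.1 (hL hy)).2
      (fun h => hxy (f.injective h))
    rw [SimpleGraph.compl_adj] at this ⊢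
    exact ⟨hxy, fun h => this.2 (Or.inl (SimpleGraph.map_adj_apply.2 h))⟩

lemma R_add_one_lt {s t : ℕ} (hs : 2 ≤ s) (ht : s < t) (h4 : 4 ≤ t) : R s s + 1 < R s t := by
  have h := RP_R s t
  obtain ⟨n, hn⟩ : ∃ n, R s t = n + 2 := by
    refine ⟨R s t - 2, ?_⟩
    by_contra hc
    rcases h ⊥ with h | h <;>
      exact absurd (SimpleGraph.cliqueFree_of_card_lt (by simp; omega)) h
  rw [hn] at h ⊢
  have : RP s s n := by
    by_cases h3 : 3 ≤ s
    · exact (h.anti ht).pred_two h3
    · exact (((h.anti (by omega : s + 1 + 1 ≤ t)).pred hs).pred hs)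
  have := R_le this
  omega

end Pool.Agent.MP_9fbb57_co.Off
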